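import Pool.Agent.helper91.RB.Spec2

/-!
# Row rb:LOC: the local factor
-/

set_option autoImplicit false

namespace Pool.Agent.RB

open NumberField IsDedekindDomain Module
open scoped nonZeroDivisors Real Classical

/-- in a field with `N ^ f` elements all `x` satisfy `x ^ (N ^ n) = x` iff `f ∣ n` -/
theorem LOC_field {k : Type} [Field k] [Finite k] {N f : ℕ} (hN : 2 ≤ N) (hf : 0 < f)
    (hc : Nat.card k = N ^ f) (n : ℕ) : (∀ x : k, x ^ N ^ n = x) ↔ f ∣ n := by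
  have hper : ∀ (m : ℕ) (x : k), x ^ N ^ (f * m) = x := by
    intro m
    induction m with
    | zero => intro x; rw [mul_zero, pow_zero, pow_one]
    | succ m ih =>
      intro x
      have h1 : x ^ N ^ f = x := by
        rw [← hc]
        have : Fintype k := Fintype.ofFinite k
        rw [Nat.card_eq_fintype_card]
        exact FiniteField.pow_card x
      rw [Nat.mul_succ, pow_add, pow_mul, ih x, h1]
  constructor
  · intro h
    set r : ℕ := n % f with hr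
    have hrf : r < f := Nat.mod_lt _ hf
    have hx : ∀ x : k, x ^ N ^ r = x := by
      intro x
      have h1 := h x
      have e : n = f * (n / f) + r := (Nat.div_add_mod n f).symm
      rw [e, pow_add, pow_mul, hper] at h1
      exact h1
    by_contra hnd
    have hr0 : 0 < r := by
      rcases Nat.eq_zero_or_pos r with h0 | h0
      · exact absurd (Nat.dvd_of_mod_eq_zero h0) hnd
      · exact h0
    obtain ⟨u, hu⟩ := IsCyclic.exists_ofOrder_eq_natCard (α := kˣ)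
    have hN1 : 1 ≤ N ^ r := Nat.one_le_pow _ _ (by omega)
    have hu1 : u ^ (N ^ r - 1) = 1 := by
      apply mul_right_cancel (b := u)
      rw [one_mul, ← pow_succ, Nat.sub_add_cancel hN1]
      apply Units.ext
      rw [Units.val_pow_eq_pow_val]
      exact hx u
    have hdvd : Nat.card kˣ ∣ N ^ r - 1 := by
      rw [← hu]
      exact orderOf_dvd_of_pow_eq_one hu1
    have hcu : Nat.card kˣ = N ^ f - 1 := by
      rw [Nat.card_units, hc]
    have h2 : 2 ≤ N ^ r := by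
      calc 2 ≤ N := hN
        _ = N ^ 1 := (pow_one N).symm
        _ ≤ N ^ r := Nat.pow_le_pow_right (by omega) hr0
    have h3 := Nat.le_of_dvd (by omega) hdvd
    rw [hcu] at h3
    have h4 : N ^ r < N ^ f := Nat.pow_lt_pow_right (by omega) hrf
    omega
  · rintro ⟨m, rfl⟩
    exact hper m

section

variable {F L : Type} [Field F] [NumberField F] [Field L] [NumberField L] [Algebra F L]

theorem LOC_over {P : HOS L} {p : HOS F} (h : P.under (𝓞 F) = p) :
    P.asIdeal.LiesOver p.asIdeal := by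
  subst h
  exact ⟨rfl⟩

theorem LOC_norm {P : HOS L} {p : HOS F} (h : P.under (𝓞 F) = p) :
    nm P = nm p ^ (P.asIdeal.inertiaDeg (𝓞 F)) := by
  have := LOC_over h
  have hm : p.asIdeal.IsMaximal := p.isMaximal
  have hm' : P.asIdeal.IsMaximal := P.isMaximal
  unfold nm
  rw [Ideal.absNorm_eq_pow_inertiaDeg'_of_liesOver P.asIdeal p.asIdeal p.isPrime p.ne_bot,
    Ideal.inertiaDeg'_eq_inertiaDeg]

theorem LOC_ncard (p : HOS F) : {P : HOS L | P.under (𝓞 F) = p}.ncard =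
    (p.asIdeal.primesOver (𝓞 L)).ncard := by
  have hinj : Function.Injective (fun P : HOS L => P.asIdeal) := fun P Q h =>
    HeightOneSpectrum.ext h
  rw [← Set.ncard_image_of_injective _ hinj]
  congr 1
  ext I
  constructor
  · rintro ⟨P, hP, rfl⟩
    exact ⟨P.isPrime, LOC_over hP⟩
  · rintro ⟨h1, h2⟩
    have hI : I ≠ ⊥ := Ideal.ne_bot_of_mem_primesOver p.ne_bot ⟨h1, h2⟩
    refine ⟨⟨I, h1, hI⟩, ?_, rfl⟩
    apply HeightOneSpectrum.ext
    exact h2.over.symm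

theorem LOC_two_le (p : HOS F) : 2 ≤ nm p := by
  unfold nm
  have h0 : Ideal.absNorm p.asIdeal ≠ 0 := by
    rw [Ne, Ideal.absNorm_eq_zero_iff]
    exact p.ne_bot
  have h1 : Ideal.absNorm p.asIdeal ≠ 1 := by
    rw [Ne, Ideal.absNorm_eq_one_iff]
    exact p.isPrime.ne_top
  omega

theorem LOC_frob {P : HOS L} {s : L ≃ₐ[F] L} {N : ℕ} (hs : ∀ x : 𝓞 L, s • x - x ^ N ∈ P.asIdeal)
    (n : ℕ) (x : 𝓞 L) : s ^ n • x - x ^ N ^ n ∈ P.asIdeal := by
  induction n with
  | zero =>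
    rw [pow_zero, one_smul, pow_zero, pow_one, sub_self]
    exact P.asIdeal.zero_mem
  | succ n ih =>
    have h1 : s ^ (n + 1) • x = s • (s ^ n • x) := by rw [pow_succ', mul_smul]
    have h2 := hs (s ^ n • x)
    have h3 : (s ^ n • x) ^ N - (x ^ N ^ n) ^ N ∈ P.asIdeal :=
      P.asIdeal.mem_of_dvd (sub_dvd_pow_sub_pow _ _ N) ih
    have h4 := P.asIdeal.add_mem h2 h3
    rw [h1, pow_succ, pow_mul]
    have e : s • s ^ n • x - (s ^ n • x) ^ N + ((s ^ n • x) ^ N - (x ^ N ^ n) ^ N) =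
        s • s ^ n • x - (x ^ N ^ n) ^ N := by ring
    rwa [e] at h4

theorem LOC_mem [IsAbelianGalois F L] {P : HOS L} {p : HOS F} (h : P.under (𝓞 F) = p)
    {s : L ≃ₐ[F] L} (hs : ∀ x : 𝓞 L, s • x - x ^ nm p ∈ P.asIdeal) (n : ℕ) :
    s ^ n ∈ P.asIdeal.inertia (L ≃ₐ[F] L) ↔ P.asIdeal.inertiaDeg (𝓞 F) ∣ n := by
  have hmax : P.asIdeal.IsMaximal := P.isMaximal
  let _ : Field (𝓞 L ⧸ P.asIdeal) := Ideal.Quotient.field P.asIdeal
  have hfin : Finite (𝓞 L ⧸ P.asIdeal) := Ideal.finiteQuotientOfFreeOfNeBot P.asIdeal P.ne_bot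
  have hf : 0 < P.asIdeal.inertiaDeg (𝓞 F) := P.asIdeal.inertiaDeg_pos (𝓞 F)
  have hcard : Nat.card (𝓞 L ⧸ P.asIdeal) = nm p ^ (P.asIdeal.inertiaDeg (𝓞 F)) := by
    rw [← LOC_norm h]
    unfold nm
    rw [Ideal.absNorm_apply, Submodule.cardQuot_apply]
  rw [← LOC_field (LOC_two_le p) hf hcard n]
  rw [show s ^ n ∈ P.asIdeal.inertia (L ≃ₐ[F] L) ↔ ∀ x : 𝓞 L, s ^ n • x - x ∈ P.asIdeal from Iff.rfl]
  constructor
  · intro h1 y
    obtain ⟨x, rfl⟩ := Ideal.Quotient.mk_surjective y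
    rw [← map_pow, Ideal.Quotient.eq]
    have h2 := h1 x
    have h3 := LOC_frob hs n x
    have e : x ^ nm p ^ n - x = (s ^ n • x - x) - (s ^ n • x - x ^ nm p ^ n) := by ring
    rw [e]
    exact P.asIdeal.sub_mem h2 h3
  · intro h1 x
    have h2 := h1 (Ideal.Quotient.mk P.asIdeal x)
    rw [← map_pow, Ideal.Quotient.eq] at h2
    have h3 := LOC_frob hs n x
    have e : s ^ n • x - x = (s ^ n • x - x ^ nm p ^ n) + (x ^ nm p ^ n - x) := by ring
    rw [e]
    exact P.asIdeal.add_mem h3 h2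

end

theorem LOC (hCHV : CHV_stmt) (hGRP : GRP_stmt) : LOC_stmt := by
  intro F L _ _ _ _ _ _ p
  obtain ⟨⟨P, hP⟩, hFr, hval, hram, -, hunr⟩ := hCHV F L p
  obtain ⟨s, hs⟩ := hFr P hP
  have hover := LOC_over hP
  have hmax : P.asIdeal.IsMaximal := P.isMaximal
  have hmax' : p.asIdeal.IsMaximal := p.isMaximal
  set f : ℕ := P.asIdeal.inertiaDeg (𝓞 F) with hf
  set g : ℕ := (p.asIdeal.primesOver (𝓞 L)).ncard with hg
  have hf0 : 0 < f := P.asIdeal.inertiaDeg_pos (𝓞 F)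
  have hg0 : 0 < g := Nat.pos_of_ne_zero (IsDedekindDomain.primesOver_ncard_ne_zero p.asIdeal (𝓞 L))
  have hcard : f * g * Nat.card (P.asIdeal.inertia (L ≃ₐ[F] L)) = Nat.card (L ≃ₐ[F] L) := by
    rw [← Ideal.ncard_primesOver_mul_card_inertia_mul_finrank (G := (L ≃ₐ[F] L)) p.asIdeal P.asIdeal,
      ← hf, ← hg]
    ring
  refine ⟨f, g, hf0, hg0, LOC_ncard p, ?_, ?_⟩
  · intro Q hQ
    have hoverQ := LOC_over hQ
    have hmaxQ : Q.asIdeal.IsMaximal := Q.isMaximal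
    rw [LOC_norm hQ]
    congr 1
    exact Ideal.inertiaDeg_eq_of_isGaloisGroup p.asIdeal Q.asIdeal P.asIdeal (L ≃ₐ[F] L)
  · intro X
    rw [← hGRP (L ≃ₐ[F] L) (fun a b => mul_comm' a b) (P.asIdeal.inertia (L ≃ₐ[F] L)) s f g hf0
      (LOC_mem hP hs) hcard X]
    refine Finset.prod_congr rfl fun χ _ => ?_
    by_cases hu : unr χ p
    · have h1 : ∀ i ∈ P.asIdeal.inertia (L ≃ₐ[F] L), χ i = 1 := fun i hi => hu P hP i hi
      rw [if_pos h1, hval χ s hu ⟨P, hP, hs⟩]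
    · have h1 : ¬ ∀ i ∈ P.asIdeal.inertia (L ≃ₐ[F] L), χ i = 1 := fun h2 =>
        hu (hunr χ ⟨P, hP, fun σ hσ => h2 σ hσ⟩)
      rw [if_neg h1, hram χ hu]

end Pool.Agent.RB
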