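import Pool.Agent.helper91.RB.Spec1

/-!
# Row rb:THD: decay and continuity of the theta series of an ideal
-/

set_option autoImplicit false

namespace Pool.Agent.RB

open NumberField NumberField.InfinitePlace NumberField.Units NumberField.Units.dirichletUnitTheorem
open MeasureTheory Filter Topology Module
open scoped nonZeroDivisors Real Classical

section

variable {K : Type} [Field K] [NumberField K]

theorem THD_mono {t t' : InfinitePlace K → ℝ} (h : ∀ v, t v ≤ t' v) (x : K) :
    qf K t x ≤ qf K t' x := by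
  unfold qf
  refine Finset.sum_le_sum fun v _ => ?_
  have h1 : (0 : ℝ) ≤ v.mult := Nat.cast_nonneg _
  exact mul_le_mul_of_nonneg_right (mul_le_mul_of_nonneg_left (h v) h1) (sq_nonneg _)

theorem THD_const (s : ℝ) (x : K) : qf K (fun _ => s) x = s * qf K (fun _ => 1) x := by
  unfold qf
  rw [Finset.mul_sum]
  refine Finset.sum_congr rfl fun v _ => ?_
  ring

theorem THD_place_le (v : InfinitePlace K) (x : K) : v x ^ 2 ≤ qf K (fun _ => 1) x := by
  unfold qf
  have h1 : (1 : ℝ) ≤ v.mult := by exact_mod_cast Nat.one_le_iff_ne_zero.2 v.mult_ne_zero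
  refine le_trans ?_ (Finset.single_le_sum (f := fun w : InfinitePlace K =>
    (w.mult : ℝ) * (1 : ℝ) * w x ^ 2) (fun w _ => by positivity) (Finset.mem_univ v))
  show v x ^ 2 ≤ (v.mult : ℝ) * 1 * v x ^ 2
  nlinarith [sq_nonneg (v x)]

/-- the form is bounded below on the nonzero elements -/
theorem THD_lower (J : FI K) : ∃ c : ℝ, 0 < c ∧ ∀ x : K, x ∈ (J : Submodule (𝓞 K) K) → x ≠ 0 →
    c ≤ qf K (fun _ => 1) x := by
  obtain ⟨a, ha, hJ⟩ := J.isFractional
  have ha0 : a ≠ 0 := nonZeroDivisors.ne_zero ha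
  have ha1 : (a : K) ≠ 0 := by
    intro h
    exact ha0 (RingOfIntegers.coe_eq_zero_iff.1 h)
  have hS0 : 0 < qf K (fun _ => 1) (a : K) := by
    obtain ⟨v⟩ : Nonempty (InfinitePlace K) := inferInstance
    refine lt_of_lt_of_le ?_ (THD_place_le v (a : K))
    exact pow_pos (InfinitePlace.pos_iff.2 ha1) 2
  refine ⟨(qf K (fun _ => 1) (a : K))⁻¹, inv_pos.2 hS0, fun x hx hx0 => ?_⟩
  obtain ⟨y, hy⟩ := hJ x hx
  have hyx : (y : K) = (a : K) * x := by
    rw [Algebra.smul_def] at hy
    exact hy
  have hy0 : y ≠ 0 := by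
    rintro rfl
    have : (a : K) * x = 0 := by rw [← hyx]; simp
    exact (mul_ne_zero ha1 hx0) this
  have hv : ∃ v : InfinitePlace K, 1 ≤ v (y : K) := by
    obtain ⟨w⟩ : Nonempty (InfinitePlace K) := inferInstance
    by_cases h : ∀ z : InfinitePlace K, z ≠ w → z (y : K) < 1
    · exact ⟨w, one_le_of_lt_one hy0 h⟩
    · push Not at h
      obtain ⟨z, -, hz⟩ := h
      exact ⟨z, hz⟩
  obtain ⟨v, hv⟩ := hv
  rw [hyx, map_mul] at hv
  have h1 : v (a : K) ^ 2 ≤ qf K (fun _ => 1) (a : K) := THD_place_le v (a : K)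
  have h2 : v x ^ 2 ≤ qf K (fun _ => 1) x := THD_place_le v x
  have h3 : 1 ≤ v (a : K) ^ 2 * v x ^ 2 := by
    rw [← mul_pow]
    exact one_le_pow₀ hv
  rw [inv_le_iff_one_le_mul₀ hS0]
  calc (1 : ℝ) ≤ v (a : K) ^ 2 * v x ^ 2 := h3
    _ ≤ qf K (fun _ => 1) (a : K) * qf K (fun _ => 1) x :=
        mul_le_mul h1 h2 (sq_nonneg _) hS0.le
    _ = qf K (fun _ => 1) x * qf K (fun _ => 1) (a : K) := mul_comm _ _

end

theorem THD (hTHI : THI_stmt) : THD_stmt := by
  intro K _ _ J hJ
  have hsum : ∀ t : InfinitePlace K → ℝ, (∀ v, 0 < t v) →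
      Summable (fun x : ((J : Submodule (𝓞 K) K) : Set K) => Real.exp (-π * qf K t x)) :=
    fun t ht => (hTHI K J hJ t ht).1
  have hpi : 0 < π := Real.pi_pos
  refine ⟨?_, ?_⟩
  · intro a ha
    obtain ⟨c₀, hc₀, hlow⟩ := THD_lower J
    refine ⟨Real.exp (π * a * c₀) * th K (J : Submodule (𝓞 K) K) (fun _ => a), π * c₀,
      by positivity, fun s t has hst => ?_⟩
    have htpos : ∀ v, 0 < t v := fun v => lt_of_lt_of_le ha (has.trans (hst v))
    have hst1 := hsum t htpos
    have hsa := hsum (fun _ => a) (fun _ => ha)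
    set o : ((J : Submodule (𝓞 K) K) : Set K) := ⟨0, (J : Submodule (𝓞 K) K).zero_mem⟩ with ho
    have ho1 : Real.exp (-π * qf K t (o : K)) = 1 := by
      have : qf K t (o : K) = 0 := by
        unfold qf
        refine Finset.sum_eq_zero fun v _ => ?_
        show (v.mult : ℝ) * t v * v (0 : K) ^ 2 = 0
        rw [map_zero]; ring
      rw [this, mul_zero, Real.exp_zero]
    have hone : 1 ≤ th K (J : Submodule (𝓞 K) K) t := by
      rw [← ho1]
      unfold th
      exact hst1.le_tsum o (fun x _ => (Real.exp_pos _).le)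
    refine ⟨hone, ?_⟩
    have hsplit : th K (J : Submodule (𝓞 K) K) t = 1 +
        ∑' x : ((J : Submodule (𝓞 K) K) : Set K),
          ite (x = o) 0 (Real.exp (-π * qf K t (x : K))) := by
      unfold th
      rw [hst1.tsum_eq_add_tsum_ite o, ho1]
    rw [hsplit, add_sub_cancel_left]
    have hterm : ∀ x : ((J : Submodule (𝓞 K) K) : Set K),
        ite (x = o) 0 (Real.exp (-π * qf K t (x : K))) ≤
          Real.exp (-π * (s - a) * c₀) * Real.exp (-π * qf K (fun _ => a) (x : K)) := by
      intro x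
      by_cases hx : x = o
      · rw [if_pos hx]
        positivity
      · rw [if_neg hx, ← Real.exp_add]
        apply Real.exp_le_exp.2
        have hx0 : (x : K) ≠ 0 := fun h => hx (Subtype.ext h)
        have h1 := hlow x x.2 hx0
        have h2 : qf K (fun _ => s) (x : K) ≤ qf K t (x : K) := THD_mono hst _
        rw [THD_const] at h2
        rw [THD_const a]
        have h3 : (s - a) * c₀ ≤ (s - a) * qf K (fun _ => 1) (x : K) :=
          mul_le_mul_of_nonneg_left h1 (by linarith)
        have h4 : (s - a) * c₀ + a * qf K (fun _ => 1) (x : K) ≤ qf K t (x : K) := by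
          linarith
        have h5 := mul_le_mul_of_nonneg_left h4 hpi.le
        linarith
    have hsr := hsa.mul_left (Real.exp (-π * (s - a) * c₀))
    have hsl : Summable (fun x : ((J : Submodule (𝓞 K) K) : Set K) =>
        ite (x = o) 0 (Real.exp (-π * qf K t (x : K)))) := by
      refine Summable.of_nonneg_of_le (fun x => ?_) hterm hsr
      by_cases hx : x = o
      · rw [if_pos hx]
      · rw [if_neg hx]
        exact (Real.exp_pos _).le
    refine (hsl.tsum_le_tsum hterm hsr).trans (le_of_eq ?_)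
    rw [tsum_mul_left]
    unfold th
    have hE : Real.exp (-π * (s - a) * c₀) =
        Real.exp (π * a * c₀) * Real.exp (-(π * c₀) * s) := by
      rw [← Real.exp_add]
      ring_nf
    rw [hE]
    ring
  · have hopen : ∀ t₀ : InfinitePlace K → ℝ,
        IsOpen {t : InfinitePlace K → ℝ | ∀ v, t₀ v / 2 < t v} := by
      intro t₀
      have : {t : InfinitePlace K → ℝ | ∀ v, t₀ v / 2 < t v} =
          ⋂ v, {t : InfinitePlace K → ℝ | t₀ v / 2 < t v} := by
        ext t
        simp
      rw [this]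
      exact isOpen_iInter_of_finite fun v => isOpen_lt continuous_const (continuous_apply v)
    intro t₀ ht₀
    have ht₀' : ∀ v, 0 < t₀ v := ht₀
    have hmem : t₀ ∈ {t : InfinitePlace K → ℝ | ∀ v, t₀ v / 2 < t v} := by
      intro v
      have := ht₀' v
      show t₀ v / 2 < t₀ v
      linarith
    have hc : ContinuousOn (fun t : InfinitePlace K → ℝ => th K (J : Submodule (𝓞 K) K) t)
        {t : InfinitePlace K → ℝ | ∀ v, t₀ v / 2 < t v} := by
      unfold th
      refine continuousOn_tsum (u := fun x : ((J : Submodule (𝓞 K) K) : Set K) =>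
        Real.exp (-π * qf K (fun v => t₀ v / 2) (x : K))) (fun x => ?_)
        (hsum _ (fun v => half_pos (ht₀' v))) (fun x t ht => ?_)
      · apply Continuous.continuousOn
        unfold qf
        fun_prop
      · rw [Real.norm_eq_abs, abs_of_pos (Real.exp_pos _)]
        apply Real.exp_le_exp.2
        have h1 : qf K (fun v => t₀ v / 2) (x : K) ≤ qf K t (x : K) :=
          THD_mono (fun v => (ht v).le) _
        have h2 := mul_le_mul_of_nonneg_left h1 hpi.le
        linarith
    exact (hc.continuousAt ((hopen t₀).mem_nhds hmem)).continuousWithinAt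

end Pool.Agent.RB
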